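import Pool.Agent.TH195.KR.McKay

/-!
# McKay bijections with degree congruences follow from asymptotic equalities

Definitions used (in `Pool/Agent/TH195/KR/McKay.lean`): `IsPChar p G f`, which says that `f` is an
irreducible complex character of `G` of degree prime to `p`; `GoodBij p G H`, the existence of a
bijection between these characters of `G` and `H` with degrees congruent up to sign modulo `p`;
`mr p r G`, the number of irreducible complex characters of `G` of degree congruent to `± r`
modulo `p`.
-/

set_option autoImplicit false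

open Pool.Agent.TH195.KR

namespace Pool.Agent.Results.MP_5ecade_al.AsymptoticBijections

/-- The class `P` of groups is closed under direct products with finite cyclic groups of order
prime to `p`. -/
def ClosedUnderCyclic (p : ℕ) (P : ∀ (G : Type) [Group G], Prop) : Prop :=
  ∀ (G : Type) [Group G] [Finite G] (m : ℕ), 0 < m → m.Coprime p → P G →
    P (G × Multiplicative (ZMod m))

/-- the normalizer of the Sylow subgroup `S` -/
abbrev NS {p : ℕ} {G : Type} [Group G] (S : Sylow p G) : Subgroup G :=
  Subgroup.normalizer (S.toSubgroup : Set G)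

/-- For every prime `p` and every class `P` of finite groups which is closed under direct products
with cyclic groups of order prime to `p` (for instance all groups, or all groups with given Sylow
`p`-subgroups): a bijection `Irr_{p'}(G) → Irr_{p'}(N_G(S))` with degrees congruent up to sign
modulo `p` exists for all `G` in `P` and all `S ∈ Syl_p(G)`, if and only if for all residues
`r ≠ 0` the numbers of irreducible characters of degree `≡ ± r (mod p)` of `G` and of `N_G(S)`
differ by `o(|G|)` for `G` in `P`. -/
theorem result (p : ℕ) [Fact p.Prime] (P : ∀ (G : Type) [Group G], Prop)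
    (hP : ClosedUnderCyclic p P) :
    (∀ (G : Type) [Group G] [Finite G], P G → ∀ S : Sylow p G, GoodBij p G (NS S)) ↔
      ∀ ε : ℝ, 0 < ε → ∃ N : ℕ, ∀ (G : Type) [Group G] [Finite G], P G → N ≤ Nat.card G →
        ∀ (S : Sylow p G) (r : ZMod p), r ≠ 0 →
          |(mr p r G : ℝ) - (mr p r (NS S) : ℝ)| ≤ ε * Nat.card G := by
  have hp : p.Prime := Fact.out
  constructor
  · intro h ε hε
    refine ⟨0, fun G _ _ hG _ S r hr => ?_⟩
    rw [goodBij_iff.1 (h G hG S) r hr, sub_self, abs_zero]
    positivity
  · intro h G _ _ hG S
    rw [goodBij_iff]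
    intro r hr
    by_contra hne
    have h1 : (1 : ℝ) ≤ |(mr p r G : ℝ) - (mr p r (NS S) : ℝ)| := by
      have h2 : (1 : ℤ) ≤ |(mr p r G : ℤ) - (mr p r (NS S) : ℤ)| := by
        apply Int.one_le_abs
        rw [sub_ne_zero]
        exact_mod_cast hne
      exact_mod_cast h2
    have hG0 : (0 : ℝ) < Nat.card G := by exact_mod_cast Nat.card_pos
    obtain ⟨N, hN⟩ := h (1 / (2 * (Nat.card G : ℝ))) (by positivity)
    have hc := coprime_Cy p N
    have h3 := hN (G × Cy p N) (hP G (N * p + 1) (Nat.succ_pos _)
      (by rw [Nat.coprime_comm]; simp) hG) (le_card_prod hp) (upS hc S) r hr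
    have h4 : mr p r (NS (upS hc S : Sylow p (G × Cy p N))) =
      mr p r (NS S) * Nat.card (Cy p N) := mr_norm hc S
    rw [h4, mr_prod, Nat.card_prod] at h3
    push_cast at h3
    have hC : (0 : ℝ) < Nat.card (Cy p N) := by exact_mod_cast Nat.card_pos
    have h5 : 1 / (2 * (Nat.card G : ℝ)) * ((Nat.card G : ℝ) * (Nat.card (Cy p N) : ℝ)) =
        (Nat.card (Cy p N) : ℝ) * (1 / 2) := by
      field_simp
    rw [h5, ← sub_mul, abs_mul, abs_of_pos hC, mul_comm] at h3
    have h6 := le_of_mul_le_mul_left h3 hC
    linarith

end Pool.Agent.Results.MP_5ecade_al.AsymptoticBijections
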