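import Pool.Agent.TH798.MK.WQ5

/-!
McKay bijections with degrees congruent up to sign modulo `p`: a congruence modulo a prime `q` for
the number of characters in a single residue class suffices.
-/

set_option autoImplicit false
open CategoryTheory

namespace Pool.Agent.Results.MP_5ecade_al.CongruenceSuffices

/-- The irreducible complex characters of `G`, as functions on `G`. -/
def Irr (G : Type) [Group G] : Set (G → ℂ) :=
  {χ | ∃ V : FDRep ℂ G, Simple V ∧ V.character = χ}

/-- The irreducible complex characters of `G` of degree not divisible by `p`. -/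
def IrrP (p : ℕ) (G : Type) [Group G] : Set (G → ℂ) :=
  {χ | χ ∈ Irr G ∧ ∃ n : ℕ, χ 1 = n ∧ ¬ p ∣ n}

/-- The number of irreducible complex characters of `G` of degree congruent to `k` or to `-k`
modulo `p`. -/
noncomputable def cnt (p : ℕ) (k : ZMod p) (G : Type) [Group G] : ℕ :=
  Nat.card {χ : G → ℂ // χ ∈ Irr G ∧
    ∃ n : ℕ, χ 1 = n ∧ ((n : ZMod p) = k ∨ (n : ZMod p) = -k)}

/-- The normaliser of a Sylow subgroup. -/
abbrev Nor {p : ℕ} {G : Type} [Group G] (P : Sylow p G) : Subgroup G :=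
  Subgroup.normalizer ((P : Subgroup G) : Set G)

/-- Question Q1 for the prime `p`: for every finite group there is a McKay bijection preserving
the degrees modulo `p` up to sign. -/
def Question (p : ℕ) : Prop :=
  ∀ (G : Type) [Group G] [Finite G] (P : Sylow p G),
    ∃ e : IrrP p G ≃ IrrP p (Nor P), ∀ χ : IrrP p G, ∃ n m : ℕ,
      (χ : G → ℂ) 1 = n ∧ (e χ : Nor P → ℂ) 1 = m ∧
        ((n : ZMod p) = (m : ZMod p) ∨ (n : ZMod p) = -(m : ZMod p))

open Pool.Agent.TH798.MK Pool.Agent.W367.SN in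
theorem fcl_eq_iff {p : ℕ} {G N : Type} [Group G] [Group N] [Finite G] [Finite N]
    (χ : IrP p G) (ψ : IrP p N) : fcl p ψ = fcl p χ ↔ ∃ n m : ℕ,
      (χ : G → ℂ) 1 = n ∧ (ψ : N → ℂ) 1 = m ∧
        ((n : ZMod p) = (m : ZMod p) ∨ (n : ZMod p) = -(m : ZMod p)) := by
  have : Fintype G := Fintype.ofFinite G
  have : Fintype N := Fintype.ofFinite N
  constructor
  · intro h
    exact ⟨dg χ.1, dg ψ.1, (dg_spec χ.2.1).1, (dg_spec ψ.2.1).1, cl_eq.1 h.symm⟩
  · rintro ⟨n, m, hn, hm, h⟩
    have h1 : dg (χ : G → ℂ) = n := dg_of hn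
    have h2 : dg (ψ : N → ℂ) = m := dg_of hm
    unfold fcl
    rw [h1, h2]
    exact (cl_eq.2 h).symm

/-- **A congruence for one residue class suffices.** Let `p` be a prime, `k ≠ 0` a residue modulo
`p`, and `m` an integer divisible by some prime `q ≠ p` which does not divide `(p - 1) / 2`.
Question Q1 for `p` holds if and only if, for every finite group `G` and every Sylow `p`-subgroup
`P`, the numbers of irreducible characters of degree `≡ ±k (mod p)` of `G` and of `N_G(P)` are
congruent modulo `m`. -/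
theorem result (p : ℕ) [Fact p.Prime] (k : ZMod p) (hk : k ≠ 0) (m : ℕ)
    (hm : ∃ q : ℕ, q.Prime ∧ q ∣ m ∧ q ≠ p ∧ Nat.Coprime q ((p - 1) / 2)) :
    Question p ↔ ∀ (G : Type) [Group G] [Finite G] (P : Sylow p G),
      cnt p k G ≡ cnt p k (Nor P) [MOD m] := by
  constructor
  · intro h G _ _ P
    obtain ⟨e, he⟩ := h G P
    have h1 := Pool.Agent.TH798.MK.cnt_of_bij (p := p) (G := G) (N := Nor P) e
      (fun χ => (fcl_eq_iff χ (e χ)).2 (he χ)) hk
    have h2 : cnt p k G = cnt p k (Nor P) := h1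
    rw [h2]
  · intro h G _ _ P
    obtain ⟨q, hq, hqm, hqp, hco⟩ := hm
    have h0 : Pool.Agent.TH798.MK.WQ.ParQ p q 1 :=
      Pool.Agent.TH798.MK.WQ.parq_of_one hk (fun G _ _ P => (h G P).of_dvd hqm)
    have h1 := fun j hj => Pool.Agent.TH798.MK.WQ.parq_exact hq hqp hco h0 G P j hj
    obtain ⟨e, he⟩ := Pool.Agent.TH798.MK.bij_of_fib (p := p) (G := G) (N := Nor P) (by
      intro z
      apply le_antisymm
      · exact Pool.Agent.TH798.MK.fib_le (fun j hj => (h1 j hj).le) z
      · exact Pool.Agent.TH798.MK.fib_le (fun j hj => (h1 j hj).ge) z)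
    exact ⟨e, fun χ => (fcl_eq_iff χ (e χ)).1 (he χ)⟩

end Pool.Agent.Results.MP_5ecade_al.CongruenceSuffices
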