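import Pool.Agent.TH798.MK.Fib

/-!
McKay bijections with degrees congruent up to sign modulo `p`: one residue class suffices, even
with an error `o(|G|)`.
-/

set_option autoImplicit false
open CategoryTheory

namespace Pool.Agent.Results.MP_5ecade_al.OneClassSuffices

/-- The irreducible complex characters of `G`, as functions on `G`. -/
def Irr (G : Type) [Group G] : Set (G → ℂ) :=
  {χ | ∃ V : FDRep ℂ G, Simple V ∧ V.character = χ}

/-- The irreducible complex characters of `G` of degree not divisible by `p`. -/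
def IrrP (p : ℕ) (G : Type) [Group G] : Set (G → ℂ) :=
  {χ | χ ∈ Irr G ∧ ∃ n : ℕ, χ 1 = n ∧ ¬ p ∣ n}

/-- The number of irreducible complex characters of `G` of degree congruent to `k` or to `-k`
modulo `p`. -/
noncomputable def cnt (p : ℕ) (k : ZMod p) (G : Type) [Group G] : ℕ :=
  Nat.card {χ : G → ℂ // χ ∈ Irr G ∧
    ∃ n : ℕ, χ 1 = n ∧ ((n : ZMod p) = k ∨ (n : ZMod p) = -k)}

/-- The normaliser of a Sylow subgroup. -/
abbrev Nor {p : ℕ} {G : Type} [Group G] (P : Sylow p G) : Subgroup G :=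
  Subgroup.normalizer ((P : Subgroup G) : Set G)

/-- The McKay equality for `p`, for every finite group. -/
def McKay (p : ℕ) : Prop :=
  ∀ (G : Type) [Group G] [Finite G] (P : Sylow p G),
    Nat.card (IrrP p G) = Nat.card (IrrP p (Nor P))

/-- Question Q1 for the prime `p`: for every finite group there is a McKay bijection preserving
the degrees modulo `p` up to sign. -/
def Question (p : ℕ) : Prop :=
  ∀ (G : Type) [Group G] [Finite G] (P : Sylow p G),
    ∃ e : IrrP p G ≃ IrrP p (Nor P), ∀ χ : IrrP p G, ∃ n m : ℕ,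
      (χ : G → ℂ) 1 = n ∧ (e χ : Nor P → ℂ) 1 = m ∧
        ((n : ZMod p) = (m : ZMod p) ∨ (n : ZMod p) = -(m : ZMod p))

open Pool.Agent.TH798.MK Pool.Agent.W367.SN in
theorem fcl_eq_iff {p : ℕ} {G N : Type} [Group G] [Group N] [Finite G] [Finite N]
    (χ : IrP p G) (ψ : IrP p N) : fcl p ψ = fcl p χ ↔ ∃ n m : ℕ,
      (χ : G → ℂ) 1 = n ∧ (ψ : N → ℂ) 1 = m ∧
        ((n : ZMod p) = (m : ZMod p) ∨ (n : ZMod p) = -(m : ZMod p)) := by
  have : Fintype G := Fintype.ofFinite G
  have : Fintype N := Fintype.ofFinite N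
  constructor
  · intro h
    exact ⟨dg χ.1, dg ψ.1, (dg_spec χ.2.1).1, (dg_spec ψ.2.1).1, cl_eq.1 h.symm⟩
  · rintro ⟨n, m, hn, hm, h⟩
    have h1 : dg (χ : G → ℂ) = n := dg_of hn
    have h2 : dg (ψ : N → ℂ) = m := dg_of hm
    unfold fcl
    rw [h1, h2]
    exact (cl_eq.2 h).symm

/-- **One residue class suffices, even asymptotically.** Let `p` be a prime and `k ≠ 0` a residue
modulo `p`. Question Q1 for `p` is equivalent to each of the following: for every finite group `G`
the numbers of irreducible characters of degree `≡ ±k` of `G` and of the normaliser of a Sylow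
`p`-subgroup are equal; they are equal up to an error `o(|G|)`; the McKay equality for `p` holds,
and one of the two numbers is at most the other plus `o(|G|)` (two forms). -/
theorem result (p : ℕ) [Fact p.Prime] (k : ZMod p) (hk : k ≠ 0) :
    [Question p,
     ∀ (G : Type) [Group G] [Finite G] (P : Sylow p G), cnt p k G = cnt p k (Nor P),
     ∀ δ : ℝ, 0 < δ → ∃ C : ℝ, ∀ (G : Type) [Group G] [Finite G] (P : Sylow p G),
       |(cnt p k G : ℝ) - cnt p k (Nor P)| ≤ δ * Nat.card G + C,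
     McKay p ∧
       ∀ δ : ℝ, 0 < δ → ∃ C : ℝ, ∀ (G : Type) [Group G] [Finite G] (P : Sylow p G),
         (cnt p k G : ℝ) ≤ cnt p k (Nor P) + (δ * Nat.card G + C),
     McKay p ∧
       ∀ δ : ℝ, 0 < δ → ∃ C : ℝ, ∀ (G : Type) [Group G] [Finite G] (P : Sylow p G),
         (cnt p k (Nor P) : ℝ) ≤ cnt p k G + (δ * Nat.card G + C)].TFAE := by
  -- exact equality in every class gives the bijections
  have key : (∀ j : ZMod p, j ≠ 0 → ∀ (G : Type) [Group G] [Finite G] (P : Sylow p G),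
      cnt p j G = cnt p j (Nor P)) → Question p := by
    intro h G _ _ P
    obtain ⟨e, he⟩ := Pool.Agent.TH798.MK.bij_of_fib (p := p) (G := G) (N := Nor P) (by
      intro z
      apply le_antisymm
      · exact Pool.Agent.TH798.MK.fib_le (fun j hj => (h j hj G P).le) z
      · exact Pool.Agent.TH798.MK.fib_le (fun j hj => (h j hj G P).ge) z)
    exact ⟨e, fun χ => (fcl_eq_iff χ (e χ)).1 (he χ)⟩
  -- the question gives everything
  have q2 : Question p → ∀ (j : ZMod p), j ≠ 0 → ∀ (G : Type) [Group G] [Finite G]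
      (P : Sylow p G), cnt p j G = cnt p j (Nor P) := by
    intro h j hj G _ _ P
    obtain ⟨e, he⟩ := h G P
    exact Pool.Agent.TH798.MK.cnt_of_bij (p := p) (G := G) (N := Nor P) e
      (fun χ => (fcl_eq_iff χ (e χ)).2 (he χ)) hj
  have qM : Question p → McKay p := by
    intro h G _ _ P
    obtain ⟨e, _⟩ := h G P
    exact Nat.card_congr e
  tfae_have 1 → 2 := fun h => q2 h k hk
  tfae_have 2 → 3 := by
    intro h δ hδ
    refine ⟨0, fun G _ _ P => ?_⟩
    rw [h G P, sub_self, abs_zero]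
    positivity
  tfae_have 3 → 1 := by
    intro h
    apply key
    intro j hj G _ _ P
    have w1 : Pool.Agent.TH798.MK.Weak p 1 k := by
      intro δ hδ
      obtain ⟨C, hC⟩ := h δ hδ
      refine ⟨C, fun G _ _ P => ?_⟩
      rw [one_mul]
      exact (le_abs_self _).trans (hC G P)
    have w2 : Pool.Agent.TH798.MK.Weak p (-1) k := by
      intro δ hδ
      obtain ⟨C, hC⟩ := h δ hδ
      refine ⟨C, fun G _ _ P => ?_⟩
      rw [neg_one_mul]
      exact (neg_le_abs _).trans (hC G P)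
    have e1 := Pool.Agent.TH798.MK.all_classes (Or.inl rfl) hk hj w1 G P
    have e2 := Pool.Agent.TH798.MK.all_classes (Or.inr rfl) hk hj w2 G P
    have e3 : ((cnt p j G : ℕ) : ℝ) = (cnt p j (Nor P) : ℕ) := by
      change 1 * (((cnt p j G : ℕ) : ℝ) - (cnt p j (Nor P) : ℕ)) ≤ 0 at e1
      change -1 * (((cnt p j G : ℕ) : ℝ) - (cnt p j (Nor P) : ℕ)) ≤ 0 at e2
      linarith
    exact_mod_cast e3
  tfae_have 1 → 4 := by
    intro h
    refine ⟨qM h, fun δ hδ => ⟨0, fun G _ _ P => ?_⟩⟩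
    rw [q2 h k hk G P]
    have : 0 ≤ δ * (Nat.card G : ℝ) := by positivity
    linarith
  tfae_have 1 → 5 := by
    intro h
    refine ⟨qM h, fun δ hδ => ⟨0, fun G _ _ P => ?_⟩⟩
    rw [q2 h k hk G P]
    have : 0 ≤ δ * (Nat.card G : ℝ) := by positivity
    linarith
  tfae_have 4 → 1 := by
    rintro ⟨hM, h⟩
    intro G _ _ P
    have w1 : Pool.Agent.TH798.MK.Weak p 1 k := by
      intro δ hδ
      obtain ⟨C, hC⟩ := h δ hδ
      refine ⟨C, fun G _ _ P => ?_⟩
      have := hC G P
      change 1 * (((cnt p k G : ℕ) : ℝ) - (cnt p k (Nor P) : ℕ)) ≤ _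
      linarith
    have hle : ∀ j : ZMod p, j ≠ 0 → cnt p j G ≤ cnt p j (Nor P) := by
      intro j hj
      have e1 := Pool.Agent.TH798.MK.all_classes (Or.inl rfl) hk hj w1 G P
      change 1 * (((cnt p j G : ℕ) : ℝ) - (cnt p j (Nor P) : ℕ)) ≤ 0 at e1
      have e3 : ((cnt p j G : ℕ) : ℝ) ≤ (cnt p j (Nor P) : ℕ) := by linarith
      exact_mod_cast e3
    obtain ⟨e, he⟩ := Pool.Agent.TH798.MK.bij_of_fib (p := p) (G := G) (N := Nor P)
      (Pool.Agent.TH798.MK.fib_eq_of_le hle (hM G P))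
    exact ⟨e, fun χ => (fcl_eq_iff χ (e χ)).1 (he χ)⟩
  tfae_have 5 → 1 := by
    rintro ⟨hM, h⟩
    intro G _ _ P
    have w1 : Pool.Agent.TH798.MK.Weak p (-1) k := by
      intro δ hδ
      obtain ⟨C, hC⟩ := h δ hδ
      refine ⟨C, fun G _ _ P => ?_⟩
      have := hC G P
      change -1 * (((cnt p k G : ℕ) : ℝ) - (cnt p k (Nor P) : ℕ)) ≤ _
      linarith
    have hle : ∀ j : ZMod p, j ≠ 0 → cnt p j (Nor P) ≤ cnt p j G := by
      intro j hj
      have e1 := Pool.Agent.TH798.MK.all_classes (Or.inr rfl) hk hj w1 G P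
      change -1 * (((cnt p j G : ℕ) : ℝ) - (cnt p j (Nor P) : ℕ)) ≤ 0 at e1
      have e3 : ((cnt p j (Nor P) : ℕ) : ℝ) ≤ (cnt p j G : ℕ) := by linarith
      exact_mod_cast e3
    obtain ⟨e, he⟩ := Pool.Agent.TH798.MK.bij_of_fib (p := p) (G := G) (N := Nor P)
      (fun z => (Pool.Agent.TH798.MK.fib_eq_of_le hle (hM G P).symm z).symm)
    exact ⟨e, fun χ => (fcl_eq_iff χ (e χ)).1 (he χ)⟩
  tfae_finish

end Pool.Agent.Results.MP_5ecade_al.OneClassSuffices
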