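import Pool.Agent.TH116.PT.Linear

/-!
# McKay bijections with degrees congruent up to sign: sublinear defects are enough
-/

universe u

namespace Pool.Agent.Results.MP_5ecade_al.SublinearDefect

open Pool.Agent.TH116.PT

/-- Finite groups `G`, for a fixed prime `p`, with the number `k(G)` of irreducible characters, the
numbers `a_c(G)` and `b_c(G)` of irreducible characters of degree congruent to `c` or `-c` modulo `p`
of `G` and of the normalizer of a Sylow `p`-subgroup, and products with cyclic groups of order
`m + 1`. -/
structure Groups where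
  /-- the finite groups -/
  Grp : Type u
  /-- the number of irreducible characters -/
  k : Grp → ℕ
  /-- the number of irreducible characters of `G` of degree `± c` modulo `p` -/
  a : Grp → ℕ → ℕ
  /-- the number of irreducible characters of `N_G(P)` of degree `± c` modulo `p` -/
  b : Grp → ℕ → ℕ
  /-- the product with a cyclic group of order `m + 1` -/
  tw : Grp → ℕ → Grp
  k_tw : ∀ G m, k (tw G m) = k G * (m + 1)
  a_tw : ∀ G m c, a (tw G m) c = a G c * (m + 1)
  b_tw : ∀ G m c, b (tw G m) c = b G c * (m + 1)

/-- The equality of the two numbers for all groups and all `c` in a set `S`, versus the equality up to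
an error `ε k(G) + C` for each `ε > 0`. -/
theorem result (T : Groups.{u}) (S : Set ℕ) :
    (∀ G, ∀ c ∈ S, T.a G c = T.b G c) ↔
      ∀ ε : ℝ, 0 < ε → ∃ C : ℝ, ∀ G, ∀ c ∈ S, |(T.a G c : ℝ) - T.b G c| ≤ ε * T.k G + C := by
  constructor
  · intro h ε hε
    refine ⟨0, fun G c hc => ?_⟩
    rw [h G c hc]
    have : (0 : ℝ) ≤ T.k G := Nat.cast_nonneg _
    simp only [sub_self, abs_zero, add_zero]
    positivity
  · intro h G c hc
    have key : (T.a G c : ℤ) - T.b G c = 0 := by
      refine eq_zero_of_linear (s := T.k G) fun ε hε => ?_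
      obtain ⟨C, hC⟩ := h ε hε
      refine ⟨C, fun N => ⟨N + 1, by omega, ?_⟩⟩
      have h1 := hC (T.tw G N) c hc
      rw [T.k_tw G, T.a_tw, T.b_tw] at h1
      push_cast at h1 ⊢
      have e : (T.a G c : ℝ) * (N + 1) - T.b G c * (N + 1) =
          ((T.a G c : ℝ) - T.b G c) * (N + 1) := by ring
      rw [e, abs_mul, abs_of_nonneg (by positivity : (0 : ℝ) ≤ (N : ℝ) + 1)] at h1
      exact h1
    omega

end Pool.Agent.Results.MP_5ecade_al.SublinearDefect
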